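import Mathlib

/-!
# Diophantine representations of binomial coefficients and factorials

Building on the theorem `Dioph.pow_dioph` of Mathlib.
-/

namespace DPRM

open Dioph Finset

/-- Reading off a digit of a number given by its expansion in base `u`. -/
theorem digit_sum (u : ℕ) (hu : 0 < u) : ∀ (k N : ℕ) (f : ℕ → ℕ), (∀ i, f i < u) →
    (∀ i, N ≤ i → f i = 0) → (∑ i ∈ range N, f i * u ^ i) / u ^ k % u = f k := by
  intro k
  induction k with
  | zero =>
    intro N f hf h0
    cases N with
    | zero => simp [h0 0 le_rfl]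
    | succ N =>
      rw [sum_range_succ']
      have : ∑ i ∈ range N, f (i + 1) * u ^ (i + 1) = u * ∑ i ∈ range N, f (i + 1) * u ^ i := by
        rw [mul_sum]; exact sum_congr rfl fun i _ => by ring
      rw [this]
      simp [Nat.add_mod, Nat.mod_eq_of_lt (hf 0)]
  | succ k ih =>
    intro N f hf h0
    cases N with
    | zero => simp [h0 (k + 1) (Nat.zero_le _)]
    | succ N =>
      rw [sum_range_succ']
      have : ∑ i ∈ range N, f (i + 1) * u ^ (i + 1) = u * ∑ i ∈ range N, f (i + 1) * u ^ i := by
        rw [mul_sum]; exact sum_congr rfl fun i _ => by ring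
      rw [this, pow_succ', ← Nat.div_div_eq_div_mul, pow_zero, mul_one, Nat.mul_add_div hu,
        Nat.div_eq_of_lt (hf 0), add_zero]
      exact ih N (fun i => f (i + 1)) (fun i => hf _) (fun i hi => h0 _ (by omega))

/-- A binomial coefficient is a digit of a power. -/
theorem choose_eq_digit (n k u : ℕ) (hu : 2 ^ n < u) :
    ((u + 1) ^ n / u ^ k) % u = n.choose k := by
  have h : (u + 1) ^ n = ∑ i ∈ range (n + 1), n.choose i * u ^ i := by
    rw [add_pow]
    exact sum_congr rfl fun i _ => by simp [mul_comm]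
  rw [h]
  exact digit_sum u ((Nat.zero_le _).trans_lt hu) k (n + 1) (fun i => n.choose i)
    (fun i => lt_of_le_of_lt (Nat.choose_le_two_pow n i) hu)
    (fun i hi => Nat.choose_eq_zero_of_lt (by omega))

/-- A form of the inequality of Bernoulli. -/
theorem add_pow_le (a b : ℕ) : ∀ n : ℕ,
    (a + b) ^ (n + 1) ≤ a ^ (n + 1) + (n + 1) * b * (a + b) ^ n := by
  intro n
  induction n with
  | zero => simp
  | succ n ih =>
    have h1 : (a + b) ^ (n + 2) = (a + b) ^ (n + 1) * a + (a + b) ^ (n + 1) * b := by ring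
    have h2 : (a + b) ^ n * a ≤ (a + b) ^ (n + 1) := by
      rw [pow_succ]; exact Nat.mul_le_mul_left _ (Nat.le_add_right _ _)
    have h3 : (n + 1) * b * ((a + b) ^ n * a) ≤ (n + 1) * b * (a + b) ^ (n + 1) :=
      Nat.mul_le_mul_left _ h2
    have h4 : (a + b) ^ (n + 1) * a ≤ (a ^ (n + 1) + (n + 1) * b * (a + b) ^ n) * a :=
      Nat.mul_le_mul_right _ ih
    have h5 : (a ^ (n + 1) + (n + 1) * b * (a + b) ^ n) * a
        = a ^ (n + 2) + (n + 1) * b * ((a + b) ^ n * a) := by ring
    have h6 : (n + 1 + 1) * b * (a + b) ^ (n + 1)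
        = (n + 1) * b * (a + b) ^ (n + 1) + (a + b) ^ (n + 1) * b := by ring
    rw [show n + 1 + 1 = n + 2 from rfl] at *
    omega

/-- A factorial is a quotient of a power by a binomial coefficient. -/
theorem factorial_eq_div (n r : ℕ) (hr : (n ^ n + 1) * n ^ 2 < r) :
    r ^ n / r.choose n = n.factorial := by
  rcases Nat.eq_zero_or_pos n with rfl | hn
  · simp
  have hnr : n ≤ r := by
    have h1 : n ≤ n ^ 2 := by nlinarith
    have h2 : n ^ 2 ≤ (n ^ n + 1) * n ^ 2 := Nat.le_mul_of_pos_left _ (Nat.succ_pos _)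
    omega
  have hpos : 0 < r.choose n := Nat.choose_pos hnr
  have hdesc : r.descFactorial n = n.factorial * r.choose n :=
    Nat.descFactorial_eq_factorial_mul_choose r n
  rw [Nat.div_eq_iff hpos]
  have hup : r.descFactorial n ≤ r ^ n := Nat.descFactorial_le_pow r n
  have hlow : (r + 1 - n) ^ n ≤ r.descFactorial n := Nat.pow_sub_le_descFactorial r n
  have hfac : n.factorial ≤ n ^ n := Nat.factorial_le_pow n
  constructor
  · rw [← hdesc]; exact hup
  · -- `r ^ n < (n! + 1) * C(r, n)`
    have key : n.factorial * r ^ n < (n.factorial + 1) * r.descFactorial n := by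
      -- Bernoulli
      have hb : r ^ n ≤ (r - n) ^ n + n * n * r ^ (n - 1) := by
        obtain ⟨m, rfl⟩ : ∃ m, n = m + 1 := ⟨n - 1, by omega⟩
        have := add_pow_le (r - (m + 1)) (m + 1) m
        rwa [Nat.sub_add_cancel hnr] at this
      have h1 : (r - n) ^ n ≤ r.descFactorial n :=
        le_trans (Nat.pow_le_pow_left (by omega) n) hlow
      have h2 : (n.factorial + 1) * (n * n * r ^ (n - 1)) < r ^ n := by
        have : r ^ n = r * r ^ (n - 1) := by
          rw [← pow_succ']; congr 1; omega
        rw [this]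
        have h3 : (n.factorial + 1) * (n * n) < r := by
          have : (n.factorial + 1) * (n * n) ≤ (n ^ n + 1) * n ^ 2 := by
            rw [pow_two]; exact Nat.mul_le_mul_right _ (by omega)
          omega
        have h4 : 0 < r ^ (n - 1) := pow_pos (by omega) _
        nlinarith
      nlinarith
    have h5 : n.factorial * r ^ n < n.factorial * ((n.factorial + 1) * r.choose n) := by
      rw [hdesc] at key; nlinarith
    have h6 := Nat.lt_of_mul_lt_mul_left h5
    have : (n.factorial + 1) * r.choose n = r.choose n + n.factorial * r.choose n := by ring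
    omega

theorem choose_dioph {α : Type} {f g : (α → ℕ) → ℕ} (df : DiophFn f) (dg : DiophFn g) :
    DiophFn fun v => (f v).choose (g v) := by
  have hu : DiophFn fun v => 2 ^ f v + 1 := add_dioph (pow_dioph (const_dioph 2) df) (const_dioph 1)
  have h : DiophFn fun v => ((2 ^ f v + 1 + 1) ^ f v / (2 ^ f v + 1) ^ g v) % (2 ^ f v + 1) :=
    mod_dioph (div_dioph (pow_dioph (add_dioph hu (const_dioph 1)) df) (pow_dioph hu dg)) hu
  have e : (fun v => ((2 ^ f v + 1 + 1) ^ f v / (2 ^ f v + 1) ^ g v) % (2 ^ f v + 1))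
      = fun v => (f v).choose (g v) :=
    funext fun v => choose_eq_digit (f v) (g v) (2 ^ f v + 1) (Nat.lt_succ_self _)
  rwa [e] at h

theorem factorial_dioph {α : Type} {f : (α → ℕ) → ℕ} (df : DiophFn f) :
    DiophFn fun v => (f v).factorial := by
  have hr : DiophFn fun v => (f v ^ f v + 1) * f v ^ 2 + 1 :=
    add_dioph (mul_dioph (add_dioph (pow_dioph df df) (const_dioph 1))
      (pow_dioph df (const_dioph 2))) (const_dioph 1)
  have h : DiophFn fun v => ((f v ^ f v + 1) * f v ^ 2 + 1) ^ f v /
      ((f v ^ f v + 1) * f v ^ 2 + 1).choose (f v) :=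
    div_dioph (pow_dioph hr df) (choose_dioph hr df)
  have e : (fun v => ((f v ^ f v + 1) * f v ^ 2 + 1) ^ f v /
      ((f v ^ f v + 1) * f v ^ 2 + 1).choose (f v)) = fun v => (f v).factorial :=
    funext fun v => factorial_eq_div (f v) _ (Nat.lt_succ_self _)
  rwa [e] at h

theorem descFactorial_dioph {α : Type} {f g : (α → ℕ) → ℕ} (df : DiophFn f) (dg : DiophFn g) :
    DiophFn fun v => (f v).descFactorial (g v) := by
  have h : DiophFn fun v => (g v).factorial * (f v).choose (g v) :=
    mul_dioph (factorial_dioph dg) (choose_dioph df dg)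
  have e : (fun v => (g v).factorial * (f v).choose (g v)) = fun v => (f v).descFactorial (g v) :=
    funext fun v => (Nat.descFactorial_eq_factorial_mul_choose _ _).symm
  rwa [e] at h

end DPRM
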