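import Pool.Agent.Lib.DPRM.Main

/-!
# Recursively enumerable sets and systems of elementary equations

Every recursively enumerable set of natural numbers is the set of parameters for which a system
of equations of the forms `y = c`, `y + y' = y''`, `y ^ 2 = y'` is solvable in integers.
-/

namespace DPRM

open MvPolynomial

/-- Elementary equations in the variables `V`. -/
inductive Atom (V : Type) : Type
  | const (v : V) (c : ℤ) : Atom V
  | add (u v w : V) : Atom V
  | sq (u v : V) : Atom V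

/-- An assignment satisfies an elementary equation. -/
def Atom.Holds {V : Type} (y : V → ℤ) : Atom V → Prop
  | .const v c => y v = c
  | .add u v w => y u + y v = y w
  | .sq u v => y u ^ 2 = y v

/-- Renaming of variables. -/
def Atom.map {V W : Type} (f : V → W) : Atom V → Atom W
  | .const v c => .const (f v) c
  | .add u v w => .add (f u) (f v) (f w)
  | .sq u v => .sq (f u) (f v)

theorem Atom.holds_map {V W : Type} (f : V → W) (y : W → ℤ) (A : Atom V) :
    (A.map f).Holds y ↔ A.Holds (y ∘ f) := by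
  cases A <;> exact Iff.rfl

/-- The value of a polynomial as a coordinate of the solutions of a system. -/
theorem exists_system_poly {σ : Type} (p : MvPolynomial σ ℤ) :
    ∃ (τ : Type) (_ : Finite τ) (l : List (Atom (σ ⊕ τ))) (z : σ ⊕ τ), ∀ x : σ → ℤ,
      (∃ t : τ → ℤ, ∀ A ∈ l, A.Holds (Sum.elim x t)) ∧
      ∀ t : τ → ℤ, (∀ A ∈ l, A.Holds (Sum.elim x t)) → Sum.elim x t z = eval x p := by
  induction p using MvPolynomial.induction_on with
  | C c =>
    refine ⟨Unit, inferInstance, [Atom.const (Sum.inr ()) c], Sum.inr (), fun x => ⟨⟨fun _ => c, ?_⟩,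
      fun t ht => ?_⟩⟩
    · intro A hA
      rw [List.mem_singleton] at hA
      subst hA
      rfl
    · have := ht _ (List.mem_singleton_self _)
      simpa [Atom.Holds] using this
  | add p q hp hq =>
    obtain ⟨τ₁, h₁, l₁, z₁, H₁⟩ := hp
    obtain ⟨τ₂, h₂, l₂, z₂, H₂⟩ := hq
    let f₁ : σ ⊕ τ₁ → σ ⊕ ((τ₁ ⊕ τ₂) ⊕ Unit) := Sum.map id (fun t => Sum.inl (Sum.inl t))
    let f₂ : σ ⊕ τ₂ → σ ⊕ ((τ₁ ⊕ τ₂) ⊕ Unit) := Sum.map id (fun t => Sum.inl (Sum.inr t))
    refine ⟨(τ₁ ⊕ τ₂) ⊕ Unit, inferInstance,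
      Atom.add (f₁ z₁) (f₂ z₂) (Sum.inr (Sum.inr ())) :: (l₁.map (Atom.map f₁) ++
        l₂.map (Atom.map f₂)), Sum.inr (Sum.inr ()), fun x => ?_⟩
    have e₁ : ∀ t : (τ₁ ⊕ τ₂) ⊕ Unit → ℤ, Sum.elim x t ∘ f₁ =
        Sum.elim x (fun i => t (Sum.inl (Sum.inl i))) := fun t => by
      funext i; rcases i with i | i <;> rfl
    have e₂ : ∀ t : (τ₁ ⊕ τ₂) ⊕ Unit → ℤ, Sum.elim x t ∘ f₂ =
        Sum.elim x (fun i => t (Sum.inl (Sum.inr i))) := fun t => by
      funext i; rcases i with i | i <;> rfl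
    constructor
    · obtain ⟨t₁, ht₁⟩ := (H₁ x).1
      obtain ⟨t₂, ht₂⟩ := (H₂ x).1
      refine ⟨Sum.elim (Sum.elim t₁ t₂) (fun _ => Sum.elim x t₁ z₁ + Sum.elim x t₂ z₂), ?_⟩
      intro A hA
      rcases List.mem_cons.1 hA with rfl | hA
      · show (Sum.elim x _ ∘ f₁) z₁ + (Sum.elim x _ ∘ f₂) z₂ = _
        rw [e₁, e₂]
        rfl
      · rcases List.mem_append.1 hA with hA | hA
        · obtain ⟨B, hB, rfl⟩ := List.mem_map.1 hA
          rw [Atom.holds_map, e₁]
          exact ht₁ B hB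
        · obtain ⟨B, hB, rfl⟩ := List.mem_map.1 hA
          rw [Atom.holds_map, e₂]
          exact ht₂ B hB
    · intro t ht
      have h0 := ht _ List.mem_cons_self
      have h1 := (H₁ x).2 (fun i => t (Sum.inl (Sum.inl i))) fun A hA => by
        have := ht (A.map f₁) (by simp [List.mem_map_of_mem hA])
        rwa [Atom.holds_map, e₁] at this
      have h2 := (H₂ x).2 (fun i => t (Sum.inl (Sum.inr i))) fun A hA => by
        have := ht (A.map f₂) (by simp [List.mem_map_of_mem hA])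
        rwa [Atom.holds_map, e₂] at this
      rw [map_add, ← h1, ← h2, ← e₁, ← e₂]
      exact h0.symm
  | mul_X p i hp =>
    obtain ⟨τ₁, h₁, l₁, z₁, H₁⟩ := hp
    let f₁ : σ ⊕ τ₁ → σ ⊕ (τ₁ ⊕ Fin 7) := Sum.map id Sum.inl
    let n : Fin 7 → σ ⊕ (τ₁ ⊕ Fin 7) := fun k => Sum.inr (Sum.inr k)
    -- `n 0 = z + x`, `n 1 = (z + x) ^ 2`, `n 2 = z ^ 2`, `n 3 = x ^ 2`, `n 4 = z ^ 2 + x ^ 2`,
    -- `n 5 = z * x`, `n 6 = 2 * z * x`
    refine ⟨τ₁ ⊕ Fin 7, inferInstance,
      Atom.add (f₁ z₁) (Sum.inl i) (n 0) :: Atom.sq (n 0) (n 1) :: Atom.sq (f₁ z₁) (n 2) ::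
      Atom.sq (Sum.inl i) (n 3) :: Atom.add (n 2) (n 3) (n 4) :: Atom.add (n 5) (n 5) (n 6) ::
      Atom.add (n 4) (n 6) (n 1) :: l₁.map (Atom.map f₁), n 5, fun x => ?_⟩
    have e₁ : ∀ t : τ₁ ⊕ Fin 7 → ℤ, Sum.elim x t ∘ f₁ = Sum.elim x (fun i => t (Sum.inl i)) :=
      fun t => by funext i; rcases i with i | i <;> rfl
    have e₁' : ∀ (t : τ₁ ⊕ Fin 7 → ℤ) v, Sum.elim x t (f₁ v) =
        Sum.elim x (fun i => t (Sum.inl i)) v := fun t v => congrFun (e₁ t) v
    constructor
    · obtain ⟨t₁, ht₁⟩ := (H₁ x).1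
      set zz : ℤ := Sum.elim x t₁ z₁ with hzz
      refine ⟨Sum.elim t₁ ![zz + x i, (zz + x i) ^ 2, zz ^ 2, x i ^ 2, zz ^ 2 + x i ^ 2, zz * x i,
        zz * x i + zz * x i], ?_⟩
      intro A hA
      simp only [List.mem_cons] at hA
      rcases hA with rfl | rfl | rfl | rfl | rfl | rfl | rfl | hA
      · simp only [Atom.Holds, e₁']; simp [n, ← hzz]
      · simp [Atom.Holds, n]
      · simp only [Atom.Holds, e₁']; simp [n, ← hzz]
      · simp [Atom.Holds, n]
      · simp [Atom.Holds, n]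
      · simp [Atom.Holds, n]
      · simp [Atom.Holds, n]; ring
      · obtain ⟨B, hB, rfl⟩ := List.mem_map.1 hA
        rw [Atom.holds_map, e₁]
        exact ht₁ B hB
    · intro t ht
      have h1 := (H₁ x).2 (fun i => t (Sum.inl i)) fun A hA => by
        have := ht (A.map f₁) (by simp [List.mem_map_of_mem hA])
        rwa [Atom.holds_map, e₁] at this
      have a0 := ht (Atom.add (f₁ z₁) (Sum.inl i) (n 0)) (by simp)
      have a1 := ht (Atom.sq (n 0) (n 1)) (by simp)
      have a2 := ht (Atom.sq (f₁ z₁) (n 2)) (by simp)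
      have a3 := ht (Atom.sq (Sum.inl i) (n 3)) (by simp)
      have a4 := ht (Atom.add (n 2) (n 3) (n 4)) (by simp)
      have a5 := ht (Atom.add (n 5) (n 5) (n 6)) (by simp)
      have a6 := ht (Atom.add (n 4) (n 6) (n 1)) (by simp)
      simp only [Atom.Holds, e₁', Sum.elim_inl] at a0 a1 a2 a3 a4 a5 a6
      rw [h1] at a0 a2
      rw [map_mul, eval_X]
      rw [← a0] at a1
      have a7 : 2 * Sum.elim x t (n 5) = 2 * (eval x p * x i) := by
        linear_combination a5 + a6 - a1 + a4 + a2 + a3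
      exact mul_left_cancel₀ two_ne_zero a7

/-- Every recursively enumerable set is the set of parameters of a solvable system. -/
theorem exists_system {p : ℕ → Prop} (h : REPred p) :
    ∃ (V : Type) (_ : Fintype V) (_ : DecidableEq V) (v₁ : V) (l : List (Atom V)),
      ∀ a : ℕ, p a ↔ ∃ y : V → ℤ, y v₁ = a ∧ ∀ A ∈ l, A.Holds y := by
  classical
  obtain ⟨n, P, hP⟩ := dprm_int h
  obtain ⟨τ, hτ, l, z, H⟩ := exists_system_poly P
  cases nonempty_fintype τ
  refine ⟨Option (Fin n) ⊕ τ, inferInstance, inferInstance, Sum.inl none,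
    Atom.const z 0 :: l, fun a => ?_⟩
  rw [hP a]
  constructor
  · rintro ⟨x, hx⟩
    obtain ⟨t, ht⟩ := (H fun o => o.elim (a : ℤ) x).1
    have h2 := (H fun o => o.elim (a : ℤ) x).2 t ht
    refine ⟨Sum.elim (fun o => o.elim (a : ℤ) x) t, rfl, ?_⟩
    intro A hA
    rcases List.mem_cons.1 hA with rfl | hA
    · show Sum.elim _ t z = 0
      rw [h2, hx]
    · exact ht A hA
  · rintro ⟨y, hy1, hy2⟩
    have e1 : (fun o : Option (Fin n) => o.elim (a : ℤ) fun i => y (Sum.inl (some i))) =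
        fun o => y (Sum.inl o) := by
      funext o
      rcases o with _ | i
      · exact hy1.symm
      · rfl
    have e2 : Sum.elim (fun o => y (Sum.inl o)) (fun s => y (Sum.inr s)) = y := by
      funext i; rcases i with i | i <;> rfl
    refine ⟨fun i => y (Sum.inl (some i)), ?_⟩
    rw [e1, ← (H fun o => y (Sum.inl o)).2 (fun s => y (Sum.inr s)) (fun A hA => by
      rw [e2]; exact hy2 A (List.mem_cons_of_mem _ hA)), e2]
    exact hy2 (Atom.const z 0) List.mem_cons_self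

end DPRM
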