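import Pool.Agent.Lib.DPRM.Arith

/-!
# Bounded universal quantification preserves Diophantine sets
-/

namespace DPRM

open Dioph Finset

/-! ### The moduli -/

/-- The `k`-th modulus. -/
def modulus (B k : ℕ) : ℕ := B.factorial ^ 2 / (k + 1) - 1

theorem modulus_dvd {B k : ℕ} (hk : k < B) : (k + 1) ∣ B.factorial ^ 2 :=
  dvd_trans (Nat.dvd_factorial (Nat.succ_pos k) hk) (dvd_pow_self _ two_ne_zero)

theorem le_quot {B k : ℕ} (hk : k < B) : B.factorial ≤ B.factorial ^ 2 / (k + 1) := by
  rw [Nat.le_div_iff_mul_le (Nat.succ_pos k), pow_two]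
  exact Nat.mul_le_mul_left _ (le_trans hk (Nat.self_le_factorial B))

theorem modulus_ge {B k : ℕ} (hB : 3 ≤ B) (hk : k < B) : 2 ≤ modulus B k := by
  have h1 := le_quot hk
  have h2 := Nat.self_le_factorial B
  unfold modulus
  omega

theorem modulus_spec {B k : ℕ} (hk : k < B) :
    (k + 1) * modulus B k = (B.factorial ^ 2 - 1) - k := by
  unfold modulus
  rw [Nat.mul_sub_one, Nat.mul_div_cancel' (modulus_dvd hk)]
  omega

theorem prod_modulus {B : ℕ} : ∀ y ≤ B,
    ∏ k ∈ range y, modulus B k = (B.factorial ^ 2 - 1).choose y := by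
  intro y
  induction y with
  | zero => simp
  | succ y ih =>
    intro hy
    rw [prod_range_succ, ih (by omega)]
    have h1 := Nat.choose_succ_right_eq (B.factorial ^ 2 - 1) y
    rw [← modulus_spec (show y < B by omega)] at h1
    have h2 : (B.factorial ^ 2 - 1).choose (y + 1) * (y + 1)
        = ((B.factorial ^ 2 - 1).choose y * modulus B y) * (y + 1) := by
      rw [h1]; ring
    exact (Nat.eq_of_mul_eq_mul_right (Nat.succ_pos y) h2).symm

theorem lt_of_prime_dvd_modulus {B k p : ℕ} (hk : k < B) (hp : p.Prime)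
    (hd : p ∣ modulus B k) : B < p := by
  by_contra hle
  have hpB : p ∣ B.factorial := Nat.dvd_factorial hp.pos (not_lt.1 hle)
  have hkB : (k + 1) ∣ B.factorial := Nat.dvd_factorial (Nat.succ_pos k) hk
  have h1 : p ∣ B.factorial ^ 2 / (k + 1) := by
    rw [pow_two, Nat.mul_div_assoc _ hkB]
    exact Dvd.dvd.mul_right hpB _
  have h2 : 1 ≤ B.factorial ^ 2 / (k + 1) := le_trans (Nat.factorial_pos B) (le_quot hk)
  have h3 : p ∣ 1 := by
    have := Nat.dvd_sub h1 hd
    unfold modulus at this
    rwa [Nat.sub_sub_self h2] at this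
  exact hp.one_lt.ne' (Nat.dvd_one.1 h3)

theorem modEq_modulus {B k : ℕ} (hk : k < B) :
    B.factorial ^ 2 - 1 ≡ k [MOD modulus B k] := by
  have h1 := modulus_spec hk
  have h2 : k ≤ B.factorial ^ 2 - 1 := by
    have := le_quot hk
    have h3 := Nat.self_le_factorial B
    have h4 : B.factorial ≤ B.factorial ^ 2 := Nat.le_self_pow two_ne_zero _
    omega
  exact ((Nat.modEq_iff_dvd' h2).2 ⟨k + 1, by rw [← h1, mul_comm]⟩).symm

theorem coprime_modulus {B k l : ℕ} (hk : k < B) (hl : l < B) (hne : k ≠ l) :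
    Nat.Coprime (modulus B k) (modulus B l) := by
  refine Nat.Coprime.symm (Nat.coprime_of_dvd fun p hp h1 h2 => ?_)
  have hB : B < p := lt_of_prime_dvd_modulus hl hp h1
  have e1 : k ≡ l [MOD p] :=
    ((modEq_modulus hk).of_dvd h2).symm.trans ((modEq_modulus hl).of_dvd h1)
  have := Nat.ModEq.eq_of_lt_of_lt e1 (by omega) (by omega)
  exact hne this

/-! ### Polynomials -/

theorem poly_modEq {γ : Type} (p : Poly γ) (m : ℤ) (v w : γ → ℕ)
    (h : ∀ i, (v i : ℤ) ≡ w i [ZMOD m]) : p v ≡ p w [ZMOD m] := by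
  refine Poly.induction (C := fun p => p v ≡ p w [ZMOD m]) (fun i => ?_) (fun n => ?_)
    (fun f g hf hg => ?_) (fun f g hf hg => ?_) p
  · simpa using h i
  · simp [Int.ModEq.refl]
  · simpa using hf.sub hg
  · simpa using hf.mul hg

theorem poly_bound {γ : Type} (p : Poly γ) : ∃ b : (γ → ℕ) → ℕ, DiophFn b ∧ Monotone b ∧
    ∀ v, (p v).natAbs ≤ b v := by
  refine Poly.induction (C := fun p => ∃ b : (γ → ℕ) → ℕ, DiophFn b ∧ Monotone b ∧
    ∀ v, (p v).natAbs ≤ b v) (fun i => ?_) (fun n => ?_) (fun f g hf hg => ?_)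
    (fun f g hf hg => ?_) p
  · exact ⟨fun v => v i, proj_dioph i, fun v w h => h i, fun v => by simp⟩
  · exact ⟨fun _ => n.natAbs, const_dioph _, fun v w h => le_rfl, fun v => by simp⟩
  · obtain ⟨b, b1, b2, b3⟩ := hf
    obtain ⟨c, c1, c2, c3⟩ := hg
    refine ⟨fun v => b v + c v, add_dioph b1 c1, fun v w h => add_le_add (b2 h) (c2 h),
      fun v => ?_⟩
    rw [Poly.sub_apply]
    exact (Int.natAbs_sub_le _ _).trans (add_le_add (b3 v) (c3 v))
  · obtain ⟨b, b1, b2, b3⟩ := hf
    obtain ⟨c, c1, c2, c3⟩ := hg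
    refine ⟨fun v => b v * c v, mul_dioph b1 c1, fun v w h => Nat.mul_le_mul (b2 h) (c2 h),
      fun v => ?_⟩
    rw [Poly.mul_apply, Int.natAbs_mul]
    exact Nat.mul_le_mul (b3 v) (c3 v)

theorem poly_support {γ : Type} (p : Poly γ) : ∃ s : Finset γ, ∀ v w : γ → ℕ,
    (∀ i ∈ s, v i = w i) → p v = p w := by
  classical
  refine Poly.induction (C := fun p => ∃ s : Finset γ, ∀ v w : γ → ℕ,
    (∀ i ∈ s, v i = w i) → p v = p w) (fun i => ?_) (fun n => ?_) (fun f g hf hg => ?_)
    (fun f g hf hg => ?_) p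
  · exact ⟨{i}, fun v w h => by simp [h i (by simp)]⟩
  · exact ⟨∅, fun v w h => by simp⟩
  · obtain ⟨s, hs⟩ := hf
    obtain ⟨t, ht⟩ := hg
    refine ⟨s ∪ t, fun v w h => ?_⟩
    rw [Poly.sub_apply, Poly.sub_apply, hs v w (fun i hi => h i (by simp [hi])),
      ht v w (fun i hi => h i (by simp [hi]))]
  · obtain ⟨s, hs⟩ := hf
    obtain ⟨t, ht⟩ := hg
    refine ⟨s ∪ t, fun v w h => ?_⟩
    rw [Poly.mul_apply, Poly.mul_apply, hs v w (fun i hi => h i (by simp [hi])),
      ht v w (fun i hi => h i (by simp [hi]))]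

/-- A Diophantine set can be presented with finitely many auxiliary variables. -/
theorem finite_dummies {α : Type} {S : Set (α → ℕ)} (h : Dioph S) :
    ∃ (β : Type) (_ : Finite β) (p : Poly (α ⊕ β)),
      ∀ v, v ∈ S ↔ ∃ t, p (Sum.elim v t) = 0 := by
  classical
  obtain ⟨β, p, hp⟩ := h
  obtain ⟨s, hs⟩ := poly_support p
  let β' : Type := {b : β // Sum.inr b ∈ s}
  have hfin : Finite β' := by
    refine Finite.of_injective (fun b : β' => (⟨Sum.inr b.1, b.2⟩ : s)) fun b c hbc => ?_
    have := congrArg Subtype.val hbc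
    exact Subtype.ext (Sum.inr_injective this)
  let φ : β → Option β' := fun b => if h : Sum.inr b ∈ s then some ⟨b, h⟩ else none
  refine ⟨Option β', inferInstance, p.map (Sum.elim Sum.inl (Sum.inr ∘ φ)), fun v => ?_⟩
  rw [hp v]
  have key : ∀ t : Option β' → ℕ, (Sum.elim v t) ∘ (Sum.elim Sum.inl (Sum.inr ∘ φ))
      = Sum.elim v (t ∘ φ) := fun t => funext fun i => by cases i <;> rfl
  constructor
  · rintro ⟨t, ht⟩
    refine ⟨fun o => Option.elim' 0 (fun b => t b.1) o, ?_⟩
    rw [Poly.map_apply, key, ← ht]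
    refine hs _ _ fun i hi => ?_
    cases i with
    | inl a => rfl
    | inr b => simp [φ, hi]
  · rintro ⟨t, ht⟩
    rw [Poly.map_apply, key] at ht
    exact ⟨_, ht⟩

theorem forall_finite {α ι : Type} [Finite ι] (S : ι → Set (α → ℕ)) (h : ∀ i, Dioph (S i)) :
    Dioph {v | ∀ i, v ∈ S i} := by
  classical
  cases nonempty_fintype ι
  refine Dioph.ext (Dioph.DiophList.forall ((Finset.univ : Finset ι).toList.map S) ?_) fun v => ?_
  · rw [List.forall_iff_forall_mem]
    intro s hs
    obtain ⟨i, _, rfl⟩ := List.mem_map.1 hs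
    exact h i
  · simp only [Set.mem_ofPred_eq, List.forall_iff_forall_mem, List.mem_map, Finset.mem_toList,
      Finset.mem_univ, true_and]
    constructor
    · intro h i
      exact h (S i) ⟨i, rfl⟩
    · rintro h s ⟨i, rfl⟩
      exact h i

/-! ### Elimination of the bounded universal quantifier -/

theorem dvd_descFactorial_of_modEq {m a t u : ℕ} (htu : t ≤ u) (h : a ≡ t [MOD m]) :
    m ∣ a.descFactorial (u + 1) := by
  rcases lt_or_ge a (u + 1) with hlt | hge
  · rw [Nat.descFactorial_of_lt hlt]; exact dvd_zero _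
  · rw [Nat.descFactorial_eq_prod_range]
    refine dvd_trans ?_ (Finset.dvd_prod_of_mem _ (Finset.mem_range.2 (Nat.lt_succ_of_le htu)))
    exact (Nat.modEq_iff_dvd' (by omega)).1 h.symm

theorem mod_le_of_dvd_descFactorial {p a u : ℕ} (hp : p.Prime) (hu : u < p)
    (h : p ∣ a.descFactorial (u + 1)) : a % p ≤ u := by
  rw [Nat.descFactorial_eq_prod_range, hp.prime.dvd_finsetProd_iff] at h
  obtain ⟨i, hi, hd⟩ := h
  have hi' : i ≤ u := Nat.lt_succ_iff.1 (Finset.mem_range.1 hi)
  rcases lt_or_ge a i with hlt | hge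
  · rw [Nat.mod_eq_of_lt (by omega)]; omega
  · have h1 : i ≡ a [MOD p] := (Nat.modEq_iff_dvd' hge).2 hd
    have h2 : a % p = i := by
      have := h1.symm
      unfold Nat.ModEq at this
      rw [this, Nat.mod_eq_of_lt (by omega)]
    omega

/-- The coding of finitely many solutions by one. -/
theorem bforall_iff {α β : Type} [Finite β] (p : Poly (Option α ⊕ β)) (x : α → ℕ) (y : ℕ)
    (b : (Option α ⊕ β → ℕ) → ℕ) (hmono : Monotone b) (hb : ∀ v, (p v).natAbs ≤ b v) :
    (∀ k < y, ∃ t : β → ℕ, p (Sum.elim (Option.elim' k x) t) = 0) ↔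
    ∃ (u : ℕ) (B : ℕ) (a : β → ℕ), B = b (Sum.elim (Option.elim' y x) fun _ => u) + y + u + 3 ∧
      ((B.factorial ^ 2 - 1).choose y ∣
        (p (Sum.elim (Option.elim' (B.factorial ^ 2 - 1) x) a)).natAbs) ∧
      ∀ j, (B.factorial ^ 2 - 1).choose y ∣ (a j).descFactorial (u + 1) := by
  classical
  cases nonempty_fintype β
  constructor
  · intro h
    choose! t ht using h
    let u : ℕ := ∑ k ∈ range y, ∑ j, t k j
    have hu : ∀ k < y, ∀ j, t k j ≤ u := fun k hk j =>
      (Finset.single_le_sum (f := fun j => t k j) (fun _ _ => Nat.zero_le _)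
        (Finset.mem_univ j)).trans
        (Finset.single_le_sum (f := fun k => ∑ j, t k j) (fun _ _ => Nat.zero_le _)
          (Finset.mem_range.2 hk))
    obtain ⟨B, hB⟩ : ∃ B, B = b (Sum.elim (Option.elim' y x) fun _ => u) + y + u + 3 := ⟨_, rfl⟩
    have hyB : ∀ k < y, k < B := fun k hk => by omega
    have hcop : ∀ k ∈ range y, ∀ l ∈ range y, k ≠ l →
        Nat.Coprime (modulus B k) (modulus B l) := fun k hk l hl hne =>
      coprime_modulus (hyB k (Finset.mem_range.1 hk)) (hyB l (Finset.mem_range.1 hl)) hne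
    have hcrt : ∀ j : β, ∃ a : ℕ, ∀ k < y, a ≡ t k j [MOD modulus B k] := by
      intro j
      obtain ⟨a, ha⟩ := Nat.chineseRemainderOfFinset (fun k => t k j) (fun k => modulus B k)
        (range y) (fun k hk => by
          have := modulus_ge (show 3 ≤ B by omega) (hyB k (Finset.mem_range.1 hk))
          omega) (fun k hk l hl hne => hcop k (by simpa using hk) l (by simpa using hl) hne)
      exact ⟨a, fun k hk => ha k (Finset.mem_range.2 hk)⟩
    choose a ha using hcrt
    have hprod : ∀ z : ℕ, (∀ k < y, modulus B k ∣ z) → (B.factorial ^ 2 - 1).choose y ∣ z := by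
      intro z hz
      rw [← prod_modulus y (by omega)]
      refine Finset.prod_dvd_of_isRelPrime (fun k hk l hl hne => ?_) fun k hk =>
        hz k (Finset.mem_range.1 hk)
      exact Nat.coprime_iff_isRelPrime.1 (hcop k (by simpa using hk) l (by simpa using hl) hne)
    refine ⟨u, B, a, hB, hprod _ fun k hk => ?_, fun j => hprod _ fun k hk => ?_⟩
    · rw [← Int.natCast_dvd]
      have h1 : p (Sum.elim (Option.elim' (B.factorial ^ 2 - 1) x) a)
          ≡ p (Sum.elim (Option.elim' k x) (t k)) [ZMOD modulus B k] := by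
        refine poly_modEq p _ _ _ fun i => ?_
        rcases i with (_ | i) | j
        · exact (Int.natCast_modEq_iff).2 (modEq_modulus (hyB k hk))
        · exact Int.ModEq.refl _
        · exact (Int.natCast_modEq_iff).2 (ha j k hk)
      rw [ht k hk] at h1
      exact Int.modEq_zero_iff_dvd.1 h1
    · exact dvd_descFactorial_of_modEq (hu k hk j) (ha j k hk)
  · rintro ⟨u, B, a, hB, h1, h2⟩ k hk
    have hkB : k < B := by omega
    have hne : modulus B k ≠ 1 := by
      have := modulus_ge (show 3 ≤ B by omega) hkB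
      omega
    obtain ⟨q, hq, hqd⟩ := Nat.exists_prime_and_dvd hne
    have hBq : B < q := lt_of_prime_dvd_modulus hkB hq hqd
    have hqM : q ∣ (B.factorial ^ 2 - 1).choose y := by
      rw [← prod_modulus y (by omega)]
      exact hqd.trans (Finset.dvd_prod_of_mem _ (Finset.mem_range.2 hk))
    have hau : ∀ j, a j % q ≤ u := fun j =>
      mod_le_of_dvd_descFactorial hq (by omega) (hqM.trans (h2 j))
    refine ⟨fun j => a j % q, ?_⟩
    have h3 : p (Sum.elim (Option.elim' k x) fun j => a j % q)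
        ≡ p (Sum.elim (Option.elim' (B.factorial ^ 2 - 1) x) a) [ZMOD q] := by
      refine poly_modEq p _ _ _ fun i => ?_
      rcases i with (_ | i) | j
      · exact (Int.natCast_modEq_iff).2 ((modEq_modulus hkB).of_dvd hqd).symm
      · exact Int.ModEq.refl _
      · exact (Int.natCast_modEq_iff).2 (Nat.mod_modEq _ _)
    have h4 : (q : ℤ) ∣ p (Sum.elim (Option.elim' (B.factorial ^ 2 - 1) x) a) :=
      Int.natCast_dvd.2 (hqM.trans h1)
    have h5 : (q : ℤ) ∣ p (Sum.elim (Option.elim' k x) fun j => a j % q) :=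
      (Int.ModEq.dvd_iff h3).2 h4
    have h6 : (p (Sum.elim (Option.elim' k x) fun j => a j % q)).natAbs < q := by
      refine lt_of_le_of_lt (hb _) (lt_of_le_of_lt (hmono ?_)
        (show b (Sum.elim (Option.elim' y x) fun _ => u) < q by omega))
      intro i
      rcases i with (_ | i) | j
      · exact hk.le
      · exact le_rfl
      · exact hau j
    exact Int.eq_zero_of_dvd_of_natAbs_lt_natAbs h5 (by simpa using h6)

/-- The bounded universal quantifier preserves Diophantine sets. -/
theorem bforall_dioph' {α : Type} {S : Set (Option α → ℕ)} (h : Dioph S) :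
    Dioph {w : Option α → ℕ | ∀ k < w none, Option.elim' k (w ∘ some) ∈ S} := by
  classical
  obtain ⟨β, hβ, p, hp⟩ := finite_dummies h
  obtain ⟨b, b1, b2, b3⟩ := poly_bound p
  -- the variables: `inl none` is the bound, `inr none` is `u`, `inr (some none)` is `B`
  let δ : Type := Option α ⊕ Option (Option β)
  have dy : DiophFn fun w : δ → ℕ => w (Sum.inl none) := proj_dioph _
  have du : DiophFn fun w : δ → ℕ => w (Sum.inr none) := proj_dioph _
  have dB : DiophFn fun w : δ → ℕ => w (Sum.inr (some none)) := proj_dioph _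
  have dq : DiophFn fun w : δ → ℕ => (w (Sum.inr (some none))).factorial ^ 2 - 1 :=
    sub_dioph (pow_dioph (factorial_dioph dB) (const_dioph 2)) (const_dioph 1)
  have dM : DiophFn fun w : δ → ℕ =>
      ((w (Sum.inr (some none))).factorial ^ 2 - 1).choose (w (Sum.inl none)) :=
    choose_dioph dq dy
  have d1 : Dioph {w : δ → ℕ | w (Sum.inr (some none)) =
      b (w ∘ Sum.elim Sum.inl (fun _ => Sum.inr none)) + w (Sum.inl none) +
        w (Sum.inr none) + 3} :=
    eq_dioph dB (add_dioph (add_dioph (add_dioph (reindex_diophFn _ b1) dy) du) (const_dioph 3))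
  let g : Option α ⊕ β → Option δ := Sum.elim
    (fun o => Option.elim' none (fun i => some (Sum.inl (some i))) o)
    (fun j => some (Sum.inr (some (some j))))
  have d2 : Dioph {w : δ → ℕ |
      ((w (Sum.inr (some none))).factorial ^ 2 - 1).choose (w (Sum.inl none)) ∣
        (p (Option.elim' ((w (Sum.inr (some none))).factorial ^ 2 - 1) w ∘ g)).natAbs} := by
    have d3 : Dioph {w : Option δ → ℕ |
        ((w (some (Sum.inr (some none)))).factorial ^ 2 - 1).choose (w (some (Sum.inl none))) ∣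
          (p (w ∘ g)).natAbs} :=
      dvd_dioph (reindex_diophFn some dM) (reindex_diophFn g (abs_poly_dioph p))
    exact diophFn_comp1 d3 dq
  have d4 : Dioph {w : δ → ℕ | ∀ j : β, w ∈ {w : δ → ℕ |
      ((w (Sum.inr (some none))).factorial ^ 2 - 1).choose (w (Sum.inl none)) ∣
        (w (Sum.inr (some (some j)))).descFactorial (w (Sum.inr none) + 1)}} :=
    forall_finite _ fun j =>
      dvd_dioph dM (descFactorial_dioph (proj_dioph _) (add_dioph du (const_dioph 1)))
  refine Dioph.ext (ex_dioph (d1.inter (d2.inter d4))) fun w => ?_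
  have key := bforall_iff p (w ∘ some) (w none) b b2 b3
  have e0 : Option.elim' (w none) (w ∘ some) = w := by
    funext o; cases o <;> rfl
  have lhs : (∀ k < w none, Option.elim' k (w ∘ some) ∈ S) ↔
      (∀ k < w none, ∃ t : β → ℕ, p (Sum.elim (Option.elim' k (w ∘ some)) t) = 0) :=
    forall_congr' fun k => forall_congr' fun _ => hp _
  show _ ↔ (∀ k < w none, Option.elim' k (w ∘ some) ∈ S)
  rw [lhs, key, e0]
  have e1 : ∀ t : Option (Option β) → ℕ,
      Sum.elim w t ∘ Sum.elim Sum.inl (fun _ : β => Sum.inr none) =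
        Sum.elim w fun _ => t none :=
    fun t => funext fun i => by rcases i with i | j <;> rfl
  have e2 : ∀ (q : ℕ) (t : Option (Option β) → ℕ), Option.elim' q (Sum.elim w t) ∘ g =
      Sum.elim (Option.elim' q (w ∘ some)) fun j => t (some (some j)) :=
    fun q t => funext fun i => by rcases i with (_ | i) | j <;> rfl
  constructor
  · rintro ⟨t, h1, h2, h3⟩
    refine ⟨t none, t (some none), fun j => t (some (some j)), ?_, ?_, fun j => h3 j⟩
    · have := h1
      simp only [Set.mem_ofPred_eq, e1] at this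
      exact this
    · have := h2
      simp only [Set.mem_ofPred_eq, e2] at this
      exact this
  · rintro ⟨u, B, a, h1, h2, h3⟩
    refine ⟨Option.elim' u (Option.elim' B a), ?_, ?_, fun j => h3 j⟩
    · simp only [Set.mem_ofPred_eq, e1]
      exact h1
    · simp only [Set.mem_ofPred_eq, e2]
      exact h2

theorem bforall_dioph {α : Type} {S : Set (Option α → ℕ)} (h : Dioph S) {f : (α → ℕ) → ℕ}
    (df : DiophFn f) : Dioph {v : α → ℕ | ∀ k < f v, Option.elim' k v ∈ S} :=
  diophFn_comp1 (bforall_dioph' h) df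

end DPRM
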