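import Pool.Agent.Lib.DPRM.Partrec

/-!
# The theorem of Davis, Putnam, Robinson and Matiyasevich

Every recursively enumerable set of natural numbers is the set of parameters for which an
integer polynomial has a zero in natural numbers (`dprm_nat`) or in integers (`dprm_int`).
Consequently there is a one-parameter family of polynomials for which the solvability in
natural numbers, or in integers, is not decidable.
-/

namespace DPRM

open Dioph MvPolynomial

/-- The polynomials of `Mathlib.NumberTheory.Dioph` are multivariate polynomials. -/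
theorem poly_eq_mvPolynomial {γ : Type} (p : Poly γ) :
    ∃ P : MvPolynomial γ ℤ, ∀ v : γ → ℕ, p v = eval (fun i => (v i : ℤ)) P := by
  refine Poly.induction (C := fun p => ∃ P : MvPolynomial γ ℤ, ∀ v : γ → ℕ,
    p v = eval (fun i => (v i : ℤ)) P) (fun i => ?_) (fun n => ?_) (fun f g hf hg => ?_)
    (fun f g hf hg => ?_) p
  · exact ⟨X i, fun v => by simp⟩
  · exact ⟨C n, fun v => by simp⟩
  · obtain ⟨P, hP⟩ := hf
    obtain ⟨Q, hQ⟩ := hg
    exact ⟨P - Q, fun v => by simp [hP, hQ]⟩
  · obtain ⟨P, hP⟩ := hf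
    obtain ⟨Q, hQ⟩ := hg
    exact ⟨P * Q, fun v => by simp [hP, hQ]⟩

/-- Natural-number form: `p` holds at `a` if and only if `P(a, x) = 0` is solvable in natural
numbers `x 0, …, x (n - 1)`; the variable `none` stands for the parameter. -/
theorem dprm_nat {p : ℕ → Prop} (h : REPred p) :
    ∃ (n : ℕ) (P : MvPolynomial (Option (Fin n)) ℤ), ∀ a : ℕ,
      p a ↔ ∃ x : Fin n → ℕ, eval (fun o => o.elim (a : ℤ) fun i => (x i : ℤ)) P = 0 := by
  classical
  have h1 : Dioph {v : Unit → ℕ | p (v ())} := dioph_of_rePred h (proj_dioph ())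
  obtain ⟨β, hβ, q, hq⟩ := finite_dummies h1
  cases nonempty_fintype β
  obtain ⟨Q, hQ⟩ := poly_eq_mvPolynomial q
  let e : β ≃ Fin (Fintype.card β) := Fintype.equivFin β
  refine ⟨Fintype.card β, rename (Sum.elim (fun _ => none) (fun b => some (e b))) Q,
    fun a => (hq fun _ => a).trans ?_⟩
  constructor
  · rintro ⟨t, ht⟩
    refine ⟨fun i => t (e.symm i), ?_⟩
    rw [eval_rename, ← ht, hQ]
    congr 2
    funext i
    rcases i with _ | b
    · rfl
    · simp
  · rintro ⟨x, hx⟩
    refine ⟨fun b => x (e b), ?_⟩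
    rw [eval_rename] at hx
    rw [hQ, ← hx]
    congr 2
    funext i
    rcases i with _ | b <;> rfl

/-- Integer form, by the theorem of Lagrange on four squares. -/
theorem dprm_int {p : ℕ → Prop} (h : REPred p) :
    ∃ (n : ℕ) (P : MvPolynomial (Option (Fin n)) ℤ), ∀ a : ℕ,
      p a ↔ ∃ x : Fin n → ℤ, eval (fun o => o.elim (a : ℤ) x) P = 0 := by
  classical
  obtain ⟨n, P, hP⟩ := dprm_nat h
  let e : Fin n × Fin 4 ≃ Fin (n * 4) := finProdFinEquiv
  let sq : Option (Fin n) → MvPolynomial (Option (Fin (n * 4))) ℤ := fun o =>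
    o.elim (X none) fun i => ∑ j : Fin 4, X (some (e (i, j))) ^ 2
  refine ⟨n * 4, bind₁ sq P, fun a => (hP a).trans ?_⟩
  have key : ∀ x : Fin (n * 4) → ℤ, eval (fun o => o.elim (a : ℤ) x) (bind₁ sq P) =
      eval (fun o => o.elim (a : ℤ) fun i => ∑ j : Fin 4, x (e (i, j)) ^ 2) P := by
    intro x
    rw [← aeval_eq_eval, ← aeval_eq_eval]
    rw [aeval_bind₁]
    congr 2
    funext o
    rcases o with _ | i <;> simp [sq]
  constructor
  · rintro ⟨x, hx⟩
    have h4 : ∀ i, ∃ y : Fin 4 → ℤ, ∑ j, y j ^ 2 = (x i : ℤ) := by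
      intro i
      obtain ⟨a, b, c, d, habcd⟩ := Nat.sum_four_squares (x i)
      refine ⟨![a, b, c, d], ?_⟩
      rw [Fin.sum_univ_four, ← habcd]
      simp
    choose y hy using h4
    refine ⟨fun k => y (e.symm k).1 (e.symm k).2, ?_⟩
    rw [key, ← hx]
    congr 2
    funext o
    rcases o with _ | i
    · rfl
    · simp [hy]
  · rintro ⟨x, hx⟩
    rw [key] at hx
    refine ⟨fun i => (∑ j : Fin 4, x (e (i, j)) ^ 2).toNat, ?_⟩
    rw [← hx]
    congr 2
    funext o
    rcases o with _ | i
    · rfl
    · exact Int.toNat_of_nonneg (Finset.sum_nonneg fun _ _ => sq_nonneg _)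

/-- There is a recursively enumerable set of natural numbers which is not computable. -/
theorem exists_rePred_not_computable : ∃ p : ℕ → Prop, REPred p ∧ ¬ ComputablePred p := by
  let q : Nat.Partrec.Code → Prop := fun c => (Nat.Partrec.Code.eval c 0).Dom
  have hq : REPred q := ComputablePred.halting_problem_re 0
  have hq' : ¬ ComputablePred q := ComputablePred.halting_problem 0
  refine ⟨fun a => q (Denumerable.ofNat Nat.Partrec.Code a), ?_, fun h => hq' ?_⟩
  · exact Partrec.comp (f := fun c => Part.assert (q c) fun _ => Part.some ()) hq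
      (Computable.ofNat Nat.Partrec.Code)
  · rw [ComputablePred.computable_iff] at h ⊢
    obtain ⟨f, hf, e⟩ := h
    refine ⟨fun c => f (Encodable.encode c), hf.comp Computable.encode, ?_⟩
    funext c
    have := congrFun e (Encodable.encode c)
    simpa using this

/-- Undecidability over the natural numbers, for a one-parameter family of polynomials. -/
theorem exists_undecidable_nat : ∃ (n : ℕ) (P : MvPolynomial (Option (Fin n)) ℤ),
    ¬ ComputablePred fun a : ℕ =>
      ∃ x : Fin n → ℕ, eval (fun o => o.elim (a : ℤ) fun i => (x i : ℤ)) P = 0 := by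
  obtain ⟨p, hp, hp'⟩ := exists_rePred_not_computable
  obtain ⟨n, P, hP⟩ := dprm_nat hp
  exact ⟨n, P, fun h => hp' (h.of_eq fun a => (hP a).symm)⟩

/-- Undecidability over the integers, for a one-parameter family of polynomials. -/
theorem exists_undecidable_int : ∃ (n : ℕ) (P : MvPolynomial (Option (Fin n)) ℤ),
    ¬ ComputablePred fun a : ℕ =>
      ∃ x : Fin n → ℤ, eval (fun o => o.elim (a : ℤ) x) P = 0 := by
  obtain ⟨p, hp, hp'⟩ := exists_rePred_not_computable
  obtain ⟨n, P, hP⟩ := dprm_int hp
  exact ⟨n, P, fun h => hp' (h.of_eq fun a => (hP a).symm)⟩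

end DPRM
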