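import Pool.Agent.Lib.DPRM.Bounded

/-!
# Graphs of recursive functions are Diophantine
-/

namespace DPRM

open Dioph

section tools

variable {α : Type}

theorem ex_dioph1 {P : ℕ → (α → ℕ) → Prop} (h : Dioph {w : Option α → ℕ | P (w none) (w ∘ some)}) :
    Dioph {v : α → ℕ | ∃ x, P x v} :=
  ex1_dioph h

theorem and_dioph {P Q : (α → ℕ) → Prop} (hP : Dioph {v | P v}) (hQ : Dioph {v | Q v}) :
    Dioph {v | P v ∧ Q v} :=
  hP.inter hQ

theorem or_dioph {P Q : (α → ℕ) → Prop} (hP : Dioph {v | P v}) (hQ : Dioph {v | Q v}) :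
    Dioph {v | P v ∨ Q v} :=
  hP.union hQ

theorem all_dioph {P : ℕ → (α → ℕ) → Prop} {f : (α → ℕ) → ℕ}
    (h : Dioph {w : Option α → ℕ | P (w none) (w ∘ some)}) (df : DiophFn f) :
    Dioph {v : α → ℕ | ∀ k < f v, P k v} :=
  bforall_dioph h df

/-- If the graph condition is Diophantine, so is the function. -/
theorem fn_dioph {f : (α → ℕ) → ℕ} (h : Dioph {w : Option α → ℕ | f (w ∘ some) = w none}) :
    DiophFn f := h

theorem reindexS {f : (α → ℕ) → ℕ} (df : DiophFn f) :
    DiophFn fun w : Option α → ℕ => f (w ∘ some) := reindex_diophFn some df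

variable {f g : (α → ℕ) → ℕ} (df : DiophFn f) (dg : DiophFn g)
include df dg

theorem pair_dioph : DiophFn fun v => Nat.pair (f v) (g v) := by
  have a := proj_dioph (none : Option α)
  have df' := reindexS df
  have dg' := reindexS dg
  refine fn_dioph (Dioph.ext (or_dioph
    (and_dioph (lt_dioph df' dg') (eq_dioph (add_dioph (mul_dioph dg' dg') df') a))
    (and_dioph (le_dioph dg' df')
      (eq_dioph (add_dioph (add_dioph (mul_dioph df' df') df') dg') a))) fun w => ?_)
  simp only [Set.mem_ofPred_eq, Nat.pair]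
  split_ifs with h
  · constructor
    · rintro (⟨_, h2⟩ | ⟨h1, _⟩)
      · exact h2
      · omega
    · exact fun h2 => Or.inl ⟨h, h2⟩
  · constructor
    · rintro (⟨h1, _⟩ | ⟨_, h2⟩)
      · omega
      · exact h2
    · exact fun h2 => Or.inr ⟨by omega, h2⟩

omit dg

theorem unpair1_dioph : DiophFn fun v => (f v).unpair.1 := by
  have df' := reindexS (reindexS df)
  refine fn_dioph (Dioph.ext (ex_dioph1 (P := fun x w => Nat.pair (w none) x = f (w ∘ some))
    (eq_dioph (pair_dioph (proj_dioph (some none)) (proj_dioph none)) df')) fun w => ?_)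
  simp only [Set.mem_ofPred_eq]
  constructor
  · rintro ⟨x, h⟩
    rw [← h, Nat.unpair_pair]
  · intro h
    exact ⟨(f (w ∘ some)).unpair.2, by rw [← h, Nat.pair_unpair]⟩

theorem unpair2_dioph : DiophFn fun v => (f v).unpair.2 := by
  have df' := reindexS (reindexS df)
  refine fn_dioph (Dioph.ext (ex_dioph1 (P := fun x w => Nat.pair x (w none) = f (w ∘ some))
    (eq_dioph (pair_dioph (proj_dioph none) (proj_dioph (some none))) df')) fun w => ?_)
  simp only [Set.mem_ofPred_eq]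
  constructor
  · rintro ⟨x, h⟩
    rw [← h, Nat.unpair_pair]
  · intro h
    exact ⟨(f (w ∘ some)).unpair.1, by rw [← h, Nat.pair_unpair]⟩

include dg

theorem beta_dioph : DiophFn fun v => Nat.beta (f v) (g v) :=
  mod_dioph (unpair1_dioph df)
    (add_dioph (mul_dioph (add_dioph dg (const_dioph 1)) (unpair2_dioph df)) (const_dioph 1))

end tools

/-- The graph of a (possibly undefined somewhere) function is Diophantine. -/
def DP (f : ℕ →. ℕ) : Prop := Dioph {v : Vector3 ℕ 2 | v (Fin2.ofNat' 1) ∈ f (v (Fin2.ofNat' 0))}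

theorem DP.comp {f : ℕ →. ℕ} (h : DP f) {α : Type} {a b : (α → ℕ) → ℕ} (da : DiophFn a)
    (db : DiophFn b) : Dioph {v | b v ∈ f (a v)} :=
  dioph_comp2 (S := fun x y => y ∈ f x) da db h

theorem DP.mk {f : ℕ →. ℕ} {P : ℕ → ℕ → Prop} (h : Dioph {v : Fin2 2 → ℕ |
    P (v (Fin2.ofNat' 0)) (v (Fin2.ofNat' 1))}) (e : ∀ x y, P x y ↔ y ∈ f x) : DP f :=
  Dioph.ext h fun _ => e _ _

/-- Values of a function defined by primitive recursion, through sequences of values. -/
theorem mem_rec_iff (F : Part ℕ) (G : ℕ → ℕ → Part ℕ) (n y : ℕ) :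
    y ∈ (Nat.rec F (fun k IH => IH.bind fun i => G k i) n : Part ℕ) ↔
      ∃ s : ℕ → ℕ, s 0 ∈ F ∧ (∀ k < n, s (k + 1) ∈ G k (s k)) ∧ s n = y := by
  induction n generalizing y with
  | zero =>
    constructor
    · intro h
      exact ⟨fun _ => y, h, fun k hk => absurd hk (Nat.not_lt_zero k), rfl⟩
    · rintro ⟨s, h1, _, rfl⟩
      exact h1
  | succ n ih =>
    show y ∈ Part.bind _ _ ↔ _
    rw [Part.mem_bind_iff]
    constructor
    · rintro ⟨i, h1, h2⟩
      obtain ⟨s, s1, s2, s3⟩ := (ih i).1 h1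
      refine ⟨fun k => if k ≤ n then s k else y, by simpa using s1, fun k hk => ?_, by simp⟩
      rcases Nat.lt_succ_iff_lt_or_eq.1 hk with hk' | rfl
      · simpa [Nat.succ_le_of_lt hk', hk'.le] using s2 k hk'
      · simpa [s3] using h2
    · rintro ⟨s, s1, s2, s3⟩
      exact ⟨s n, (ih _).2 ⟨s, s1, fun k hk => s2 k (by omega), rfl⟩, s3 ▸ s2 n (by omega)⟩

/-- Finite sequences are values of the beta function. -/
theorem exists_beta (s : ℕ → ℕ) (n : ℕ) : ∃ c, ∀ k ≤ n, Nat.beta c k = s k := by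
  refine ⟨Nat.unbeta ((List.range (n + 1)).map s), fun k hk => ?_⟩
  have h := Nat.beta_unbeta_coe ((List.range (n + 1)).map s)
    ⟨k, by simpa using Nat.lt_succ_of_le hk⟩
  simpa using h

theorem mem_rec_iff_beta (F : Part ℕ) (G : ℕ → ℕ → Part ℕ) (n y : ℕ) :
    y ∈ (Nat.rec F (fun k IH => IH.bind fun i => G k i) n : Part ℕ) ↔
      ∃ c : ℕ, (Nat.beta c 0 ∈ F ∧ (∀ k < n, Nat.beta c (k + 1) ∈ G k (Nat.beta c k))) ∧
        Nat.beta c n = y := by
  rw [mem_rec_iff]
  constructor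
  · rintro ⟨s, s1, s2, s3⟩
    obtain ⟨c, hc⟩ := exists_beta s n
    refine ⟨c, ⟨by rwa [hc 0 (Nat.zero_le _)], fun k hk => ?_⟩, by rw [hc n le_rfl, s3]⟩
    rw [hc (k + 1) hk, hc k hk.le]
    exact s2 k hk
  · rintro ⟨c, ⟨c1, c2⟩, c3⟩
    exact ⟨Nat.beta c, c1, c2, c3⟩

theorem dp_of_partrec {f : ℕ →. ℕ} (h : Nat.Partrec f) : DP f := by
  have d0 : DiophFn fun v : Fin2 2 → ℕ => v (Fin2.ofNat' 0) := proj_dioph _
  have d1 : DiophFn fun v : Fin2 2 → ℕ => v (Fin2.ofNat' 1) := proj_dioph _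
  induction h with
  | zero =>
    refine DP.mk (P := fun x y => y = 0) (eq_dioph d1 (const_dioph 0)) fun x y => ?_
    show y = 0 ↔ y ∈ Part.some 0
    simp
  | succ =>
    exact DP.mk (P := fun x y => y = x + 1) (eq_dioph d1 (add_dioph d0 (const_dioph 1)))
      fun x y => by simp
  | left =>
    exact DP.mk (P := fun x y => y = x.unpair.1) (eq_dioph d1 (unpair1_dioph d0))
      fun x y => by simp
  | right =>
    exact DP.mk (P := fun x y => y = x.unpair.2) (eq_dioph d1 (unpair2_dioph d0))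
      fun x y => by simp
  | @pair f g hf hg ihf ihg =>
    refine DP.mk (P := fun x y => ∃ a, ∃ b, (a ∈ f x ∧ b ∈ g x) ∧ Nat.pair a b = y)
      (ex_dioph1 (P := fun a v => ∃ b, (a ∈ f (v (Fin2.ofNat' 0)) ∧ b ∈ g (v (Fin2.ofNat' 0))) ∧
        Nat.pair a b = v (Fin2.ofNat' 1))
      (ex_dioph1 (P := fun b v => (v none ∈ f (v (some (Fin2.ofNat' 0))) ∧
        b ∈ g (v (some (Fin2.ofNat' 0)))) ∧ Nat.pair (v none) b = v (some (Fin2.ofNat' 1)))
      (and_dioph (and_dioph (ihf.comp (reindexS (reindexS d0)) (proj_dioph (some none)))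
        (ihg.comp (reindexS (reindexS d0)) (proj_dioph none)))
        (eq_dioph (pair_dioph (proj_dioph (some none)) (proj_dioph none))
          (reindexS (reindexS d1)))))) fun x y => ?_
    simp only [Seq.seq, Part.mem_bind_iff, Part.map_eq_map, Part.mem_map_iff]
    constructor
    · rintro ⟨a, b, ⟨h1, h2⟩, h3⟩
      exact ⟨Nat.pair a, ⟨a, h1, rfl⟩, b, h2, h3⟩
    · rintro ⟨_, ⟨a, h1, rfl⟩, b, h2, h3⟩
      exact ⟨a, b, ⟨h1, h2⟩, h3⟩
  | @comp f g hf hg ihf ihg =>
    refine DP.mk (P := fun x y => ∃ a, a ∈ g x ∧ y ∈ f a)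
      (ex_dioph1 (P := fun a v => a ∈ g (v (Fin2.ofNat' 0)) ∧ v (Fin2.ofNat' 1) ∈ f a)
        (and_dioph (ihg.comp (reindexS d0) (proj_dioph none))
          (ihf.comp (proj_dioph none) (reindexS d1)))) fun x y => ?_
    exact Part.mem_bind_iff.symm
  | @prec f g hf hg ihf ihg =>
    -- parameters `x, y`, then `c`, then `k`
    have e0 := reindexS (reindexS d0)
    refine DP.mk (P := fun x y => ∃ c, (Nat.beta c 0 ∈ f x.unpair.1 ∧
        (∀ k < x.unpair.2, Nat.beta c (k + 1) ∈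
          g (Nat.pair x.unpair.1 (Nat.pair k (Nat.beta c k))))) ∧ Nat.beta c x.unpair.2 = y)
      (ex_dioph1 (P := fun c v => (Nat.beta c 0 ∈ f (v (Fin2.ofNat' 0)).unpair.1 ∧
        (∀ k < (v (Fin2.ofNat' 0)).unpair.2, Nat.beta c (k + 1) ∈
          g (Nat.pair (v (Fin2.ofNat' 0)).unpair.1 (Nat.pair k (Nat.beta c k))))) ∧
          Nat.beta c (v (Fin2.ofNat' 0)).unpair.2 = v (Fin2.ofNat' 1))
        (and_dioph (and_dioph (ihf.comp (unpair1_dioph (reindexS d0))
          (beta_dioph (proj_dioph none) (const_dioph 0)))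
          (all_dioph (P := fun k v => Nat.beta (v none) (k + 1) ∈
            g (Nat.pair (v (some (Fin2.ofNat' 0))).unpair.1
              (Nat.pair k (Nat.beta (v none) k))))
            (ihg.comp (pair_dioph (unpair1_dioph e0) (pair_dioph (proj_dioph none)
              (beta_dioph (proj_dioph (some none)) (proj_dioph none))))
              (beta_dioph (proj_dioph (some none)) (add_dioph (proj_dioph none) (const_dioph 1))))
            (unpair2_dioph (reindexS d0))))
          (eq_dioph (beta_dioph (proj_dioph none) (unpair2_dioph (reindexS d0)))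
            (reindexS d1))))
      fun x y => ?_
    exact (mem_rec_iff_beta (f x.unpair.1)
      (fun k i => g (Nat.pair x.unpair.1 (Nat.pair k i))) x.unpair.2 y).symm
  | @rfind f hf ihf =>
    refine DP.mk (P := fun x y => 0 ∈ f (Nat.pair x y) ∧ ∀ k < y, ∃ z, z ∈ f (Nat.pair x k) ∧ z ≠ 0)
      (and_dioph (ihf.comp (pair_dioph d0 d1) (const_dioph 0))
        (all_dioph (P := fun k v => ∃ z, z ∈ f (Nat.pair (v (Fin2.ofNat' 0)) k) ∧ z ≠ 0)
          (ex_dioph1 (P := fun z v => z ∈ f (Nat.pair (v (some (Fin2.ofNat' 0))) (v none)) ∧ z ≠ 0)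
            (and_dioph (ihf.comp (pair_dioph (reindexS (reindexS d0)) (proj_dioph (some none)))
              (proj_dioph none)) (ne_dioph (proj_dioph none) (const_dioph 0)))) d1))
      fun x y => ?_
    refine Iff.trans ?_ Nat.mem_rfind.symm
    have e1 : ∀ (b : Bool) (n : ℕ), (b ∈ (fun m => decide (m = 0)) <$> f (Nat.pair x n)) ↔
        ∃ z, z ∈ f (Nat.pair x n) ∧ decide (z = 0) = b := fun b n => Part.mem_map_iff _
    constructor
    · rintro ⟨h1, h2⟩
      refine ⟨(e1 _ _).2 ⟨0, h1, rfl⟩, fun {m} hm => (e1 _ _).2 ?_⟩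
      obtain ⟨z, hz, hz0⟩ := h2 m hm
      exact ⟨z, hz, decide_eq_false hz0⟩
    · rintro ⟨h1, h3⟩
      obtain ⟨z, hz, hz0⟩ := (e1 _ _).1 h1
      rw [of_decide_eq_true hz0] at hz
      refine ⟨hz, fun m hm => ?_⟩
      obtain ⟨z, hz, hz0⟩ := (e1 _ _).1 (h3 hm)
      exact ⟨z, hz, of_decide_eq_false hz0⟩

/-- Every recursively enumerable set of natural numbers is Diophantine. -/
theorem dioph_of_rePred {p : ℕ → Prop} (h : REPred p) {α : Type} {a : (α → ℕ) → ℕ}
    (da : DiophFn a) : Dioph {v : α → ℕ | p (a v)} := by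
  have h1 : Nat.Partrec _ := h
  refine Dioph.ext ((dp_of_partrec h1).comp da (const_dioph 0)) fun v => ?_
  simp only [Set.mem_ofPred_eq, Part.mem_bind_iff, Part.mem_map_iff, Part.mem_assert_iff,
    Encodable.decode_nat, Part.coe_some, Part.mem_some_iff, exists_eq_left]
  constructor
  · rintro ⟨_, ⟨hp, _⟩, _⟩
    exact hp
  · intro hp
    exact ⟨(), ⟨hp, trivial⟩, rfl⟩

end DPRM
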